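import Pool.Agent.Q302.NB.Main

/-!
# MP_37207a_lc, Q1: yes

There is a subfield `K` of `ℝ` all of whose field orderings are archimedean (`K` is Euclidean, so
it has only one ordering) and a set `D ⊆ K`, definable in the language of rings without parameters
(the set of cubes), which is not Borel for the order topology of `K`.
-/

namespace Pool.Agent.Results.MP_37207a_lc.EuclideanCubes

open Pool.Agent.Q302.NB

/-- Full positive answer to Q1 of MP_37207a_lc. -/
theorem result : ∃ K : Subfield ℝ, (∀ d ∈ K, 0 ≤ d → √d ∈ K) ∧ OnlyArchimedeanOrderings K ∧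
    ∃ D : Set K, DefinableInRing D ∧ ¬ @MeasurableSet K (borel K) D :=
  main

end Pool.Agent.Results.MP_37207a_lc.EuclideanCubes
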